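import Pool.Agent.Work.MP_2738db_nt_Y.Interface5

set_option autoImplicit false

namespace Pool.Agent.Work.MP_2738db_nt_Y.helper59

open NumberField NumberField.InfinitePlace Module
open Pool.Agent.Work.MP_2738db_nt_A (HB Stmt_Min Stmt_Cnt)

/-- norm of a principal ideal through the infinite places -/
theorem log_absNorm_span (K : Type) [Field K] [NumberField K] (x : 𝓞 K) (hx0 : x ≠ 0) :
    Real.log (Ideal.absNorm (Ideal.span {x}))
      = ∑ v : InfinitePlace K, (v.mult : ℝ) * Real.log (v (x : K)) := by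
  have hxK : (x : K) ≠ 0 := by simpa using hx0
  have hpos : ∀ v : InfinitePlace K, 0 < v (x : K) := fun v => InfinitePlace.pos_iff.2 hxK
  have h1 : ∑ v : InfinitePlace K, (v.mult : ℝ) * Real.log (v (x : K))
      = Real.log (∏ v : InfinitePlace K, v (x : K) ^ v.mult) := by
    rw [Real.log_prod (fun v _ => (pow_pos (hpos v) _).ne')]
    refine Finset.sum_congr rfl fun v _ => ?_
    rw [Real.log_pow]
  have h3 : ((|Algebra.norm ℚ (x : K)| : ℚ) : ℝ) = ((Algebra.norm ℤ x).natAbs : ℝ) := by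
    rw [← Algebra.coe_norm_int, Nat.cast_natAbs]
    push_cast
    rfl
  rw [h1, InfinitePlace.prod_eq_abs_norm, h3, Ideal.absNorm_span_singleton]

/-- the elements of the powers of `I` -/
theorem exists_seq (hMin : Stmt_Min) (K : Type) [Field K] [NumberField K] (H : ℝ)
    (I : Ideal (𝓞 K)) (hI : I ≠ ⊥) (hH : 2 ≤ H) (hD : (finrank ℚ K : ℝ) ≤ H)
    (hd : Real.log |(discr K : ℝ)| ≤ H) (j : ℕ) :
    ∃ (x : 𝓞 K) (q : Ideal (𝓞 K)), x ≠ 0 ∧ q ≠ ⊥ ∧ Ideal.span {x} = I ^ j * q ∧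
      (Ideal.absNorm q : ℝ) ≤ Real.exp (2 * H ^ 3) ∧
      ∀ v : InfinitePlace K, |Real.log (v (x : K)) -
        (j : ℝ) / finrank ℚ K * Real.log (Ideal.absNorm I)| ≤ 2 * H ^ 2 := by
  have hD1 : (1 : ℝ) ≤ finrank ℚ K := by
    have : 1 ≤ finrank ℚ K := finrank_pos
    exact_mod_cast this
  have hmult : ∑ v : InfinitePlace K, (v.mult : ℝ) = finrank ℚ K := by
    have := InfinitePlace.sum_mult_eq (K := K)
    exact_mod_cast this
  have hIj : I ^ j ≠ ⊥ := pow_ne_zero j hI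
  have hlog4 : Real.log 4 ≤ 2 := by
    have : Real.log 4 = 2 * Real.log 2 := by
      rw [show (4 : ℝ) = 2 ^ 2 by norm_num, Real.log_pow]; norm_num
    have := Real.log_two_lt_d9
    linarith
  have hN0 : Ideal.absNorm I ≠ 0 := by rwa [Ne, Ideal.absNorm_eq_zero_iff]
  have hNpos : (0 : ℝ) < Ideal.absNorm I := by exact_mod_cast Nat.pos_of_ne_zero hN0
  obtain ⟨x, hx, hx0, hv⟩ := hMin K (I ^ j)
    (fun _ => (j : ℝ) / finrank ℚ K * Real.log (Ideal.absNorm I)) (2 * H) hIj (by linarith) (by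
      rw [← Finset.sum_mul, hmult, map_pow, Nat.cast_pow, Real.log_pow]
      field_simp)
  have hdvd : I ^ j ∣ Ideal.span {x} := by rwa [Ideal.dvd_span_singleton]
  obtain ⟨q, hq⟩ := hdvd
  have hxs : Ideal.span {x} ≠ ⊥ := by
    rwa [Ne, Ideal.span_singleton_eq_bot]
  have hq0 : q ≠ ⊥ := by
    rintro rfl
    exact hxs (by rw [hq]; simp)
  have hv2 : ∀ v : InfinitePlace K, |Real.log (v (x : K)) -
        (j : ℝ) / finrank ℚ K * Real.log (Ideal.absNorm I)| ≤ 2 * H ^ 2 := fun v =>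
    (hv v).trans (by nlinarith)
  refine ⟨x, q, hx0, hq0, hq, ?_, hv2⟩
  have hNq : (0 : ℝ) < Ideal.absNorm q := by
    have : Ideal.absNorm q ≠ 0 := by rwa [Ne, Ideal.absNorm_eq_zero_iff]
    exact_mod_cast Nat.pos_of_ne_zero this
  have h1 := log_absNorm_span K x hx0
  rw [hq, map_mul, map_pow, Nat.cast_mul, Nat.cast_pow,
    Real.log_mul (pow_pos hNpos _).ne' hNq.ne', Real.log_pow] at h1
  have h2 : ∑ v : InfinitePlace K, (v.mult : ℝ) * Real.log (v (x : K))
      ≤ ∑ v : InfinitePlace K, (v.mult : ℝ) *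
        ((j : ℝ) / finrank ℚ K * Real.log (Ideal.absNorm I) + 2 * H ^ 2) := by
    refine Finset.sum_le_sum fun v _ => mul_le_mul_of_nonneg_left ?_ (by positivity)
    have := (abs_le.1 (hv2 v)).2
    linarith
  rw [← Finset.sum_mul, hmult] at h2
  have h3 : (finrank ℚ K : ℝ) * ((j : ℝ) / finrank ℚ K * Real.log (Ideal.absNorm I) + 2 * H ^ 2)
      = j * Real.log (Ideal.absNorm I) + finrank ℚ K * (2 * H ^ 2) := by
    field_simp
  rw [h3] at h2
  have h4 : Real.log (Ideal.absNorm q) ≤ 2 * H ^ 3 := by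
    have : (finrank ℚ K : ℝ) * (2 * H ^ 2) ≤ H * (2 * H ^ 2) :=
      mul_le_mul_of_nonneg_right hD (by positivity)
    nlinarith
  calc (Ideal.absNorm q : ℝ) = Real.exp (Real.log (Ideal.absNorm q)) := (Real.exp_log hNq).symm
    _ ≤ _ := Real.exp_le_exp.2 h4

theorem stmt_Bgn (hMin : Stmt_Min) (hCnt : Stmt_Cnt) : Stmt_Bgn := by
  classical
  refine ⟨7, by norm_num, ?_⟩
  intro K _ _ H I hI hH hD hd
  have hH7 : (H : ℝ) ^ (7 : ℝ) = H ^ 7 := by
    rw [← Real.rpow_natCast]; norm_num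
  rw [hH7]
  choose x q hx0 hq0 hq hNq hv using fun j : ℕ => exists_seq hMin K H I hI hH hD hd j
  have hD1 : (1 : ℝ) ≤ finrank ℚ K := by
    have : 1 ≤ finrank ℚ K := finrank_pos
    exact_mod_cast this
  set m₀ : ℕ := ⌊Real.exp (2 * H ^ 3)⌋₊ with hm₀
  have hm1 : 1 ≤ m₀ := by
    rw [hm₀, Nat.one_le_floor_iff]
    exact Real.one_le_exp (by positivity)
  obtain ⟨hfin, hcard⟩ := hCnt K m₀ hm1
  set m : ℕ := m₀ ^ (finrank ℚ K ^ 2 + 1) with hm
  -- pigeonhole
  have hmaps : ∀ j ∈ Finset.range (m + 1), q j ∈ hfin.toFinset := fun j _ => by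
    rw [Set.Finite.mem_toFinset]
    exact ⟨hq0 j, Nat.le_floor (hNq j)⟩
  have hlt : hfin.toFinset.card < (Finset.range (m + 1)).card := by
    rw [Finset.card_range, ← Set.ncard_eq_toFinset_card _ hfin]
    omega
  obtain ⟨i, hi, j, hj, hij, hqij⟩ := Finset.exists_ne_map_eq_of_card_lt_of_maps_to hlt hmaps
  wlog hlt' : i < j generalizing i j
  · exact this j hj i hi hij.symm hqij.symm (lt_of_le_of_ne (not_lt.1 hlt') hij.symm)
  set s : ℕ := j - i with hs
  have hs1 : 1 ≤ s := by omega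
  have hsm : s ≤ m := by
    rw [Finset.mem_range] at hj; omega
  have hspan : Ideal.span {x j} = I ^ s * Ideal.span {x i} := by
    rw [hq j, hq i, ← hqij, ← mul_assoc, ← pow_add]
    congr 2
    omega
  have hmem : x j ∈ Ideal.span {x i} := by
    have h1 : Ideal.span {x j} ≤ Ideal.span {x i} := by
      rw [hspan]; exact Ideal.le_of_dvd (dvd_mul_left _ _)
    exact h1 (Ideal.mem_span_singleton_self _)
  obtain ⟨α, hα⟩ := Ideal.mem_span_singleton'.1 hmem
  have hαs : Ideal.span {α} = I ^ s := by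
    have h1 : Ideal.span {α} * Ideal.span {x i} = I ^ s * Ideal.span {x i} := by
      rw [Ideal.span_singleton_mul_span_singleton, hα, hspan]
    refine mul_right_cancel₀ ?_ h1
    rw [Ne, ← Ideal.zero_eq_bot] at *
    intro h
    exact hx0 i (by rwa [Ideal.zero_eq_bot, Ideal.span_singleton_eq_bot] at h)
  have hα0 : α ≠ 0 := by
    rintro rfl
    exact hx0 j (by rw [← hα, zero_mul])
  -- size of `m`
  have hmexp : (m : ℝ) ≤ Real.exp (2 * H ^ 3 * (H ^ 2 + 1)) := by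
    have h1 : (m₀ : ℝ) ≤ Real.exp (2 * H ^ 3) := Nat.floor_le (Real.exp_pos _).le
    have h2 : (m : ℝ) ≤ Real.exp (2 * H ^ 3) ^ (finrank ℚ K ^ 2 + 1) := by
      rw [hm, Nat.cast_pow]
      exact pow_le_pow_left₀ (by positivity) h1 _
    refine h2.trans ?_
    rw [← Real.exp_nat_mul, Real.exp_le_exp, mul_comm]
    refine mul_le_mul_of_nonneg_left ?_ (by positivity)
    push_cast
    have : (finrank ℚ K : ℝ) ^ 2 ≤ H ^ 2 := pow_le_pow_left₀ (by positivity) hD 2
    linarith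
  have hpoly : 2 * H ^ 3 * (H ^ 2 + 1) + 1 ≤ H ^ 7 := by
    have h2 : (4 : ℝ) ≤ H ^ 2 := by nlinarith
    have h3 : (8 : ℝ) ≤ H ^ 3 := by nlinarith
    have e1 : H ^ 7 = H ^ 3 * (H ^ 2 * H ^ 2) := by ring
    rw [e1]
    nlinarith [mul_nonneg (by positivity : (0:ℝ) ≤ H ^ 3) (by nlinarith : (0:ℝ) ≤ H ^ 2 - 4)]
  have hsexp : (s : ℝ) + 1 ≤ Real.exp (H ^ 7) := by
    have h1 : (s : ℝ) ≤ m := by exact_mod_cast hsm
    have h2 : (1 : ℝ) ≤ Real.exp (2 * H ^ 3 * (H ^ 2 + 1)) := Real.one_le_exp (by positivity)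
    have h3 : Real.exp (2 * H ^ 3 * (H ^ 2 + 1)) * 2 ≤ Real.exp (H ^ 7) := by
      have h4 : (2 : ℝ) ≤ Real.exp 1 := by
        have := Real.exp_one_gt_d9; linarith
      calc Real.exp (2 * H ^ 3 * (H ^ 2 + 1)) * 2
          ≤ Real.exp (2 * H ^ 3 * (H ^ 2 + 1)) * Real.exp 1 :=
            mul_le_mul_of_nonneg_left h4 (Real.exp_pos _).le
        _ = Real.exp (2 * H ^ 3 * (H ^ 2 + 1) + 1) := (Real.exp_add _ _).symm
        _ ≤ _ := Real.exp_le_exp.2 hpoly
    linarith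
  refine ⟨s, α, hs1, by linarith, hαs, ?_⟩
  intro v
  have hvi : 0 < v (x i : K) := InfinitePlace.pos_iff.2 (by simpa using hx0 i)
  have hvj : 0 < v (x j : K) := InfinitePlace.pos_iff.2 (by simpa using hx0 j)
  have hvα : 0 < v (α : K) := InfinitePlace.pos_iff.2 (by simpa using hα0)
  have hmul : v (x j : K) = v (α : K) * v (x i : K) := by
    rw [← hα, ← map_mul]; rfl
  have hlog : Real.log (v (α : K)) = Real.log (v (x j : K)) - Real.log (v (x i : K)) := by
    rw [hmul, Real.log_mul hvα.ne' hvi.ne']; ring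
  have hNI : 0 ≤ Real.log (Ideal.absNorm I) := Real.log_natCast_nonneg _
  have hle : Real.log (v (α : K)) ≤ s * Real.log (Ideal.absNorm I) + 4 * H ^ 2 := by
    have h1 := (abs_le.1 (hv j v)).2
    have h2 := (abs_le.1 (hv i v)).1
    have h3 : (j : ℝ) / finrank ℚ K * Real.log (Ideal.absNorm I)
        - (i : ℝ) / finrank ℚ K * Real.log (Ideal.absNorm I)
        = (s : ℝ) / finrank ℚ K * Real.log (Ideal.absNorm I) := by
      have : (s : ℝ) = j - i := by
        rw [hs, Nat.cast_sub hlt'.le]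
      rw [this]; ring
    have h4 : (s : ℝ) / finrank ℚ K * Real.log (Ideal.absNorm I)
        ≤ s * Real.log (Ideal.absNorm I) :=
      mul_le_mul_of_nonneg_right (div_le_self (by positivity) hD1) hNI
    rw [hlog]
    linarith
  calc v (α : K) = Real.exp (Real.log (v (α : K))) := (Real.exp_log hvα).symm
    _ ≤ _ := Real.exp_le_exp.2 ?_
  refine hle.trans ?_
  have h5 : 4 * H ^ 2 ≤ Real.exp (H ^ 7) := by
    have h6 := Real.add_one_le_exp (H ^ 7)
    have h2 : (4 : ℝ) ≤ H ^ 2 := by nlinarith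
    have e1 : H ^ 7 = H ^ 2 * (H ^ 2 * H ^ 2 * H) := by ring
    have h7 : (4 : ℝ) ≤ H ^ 2 * H ^ 2 * H := by nlinarith
    nlinarith
  have h6 : (s : ℝ) ≤ Real.exp (H ^ 7) := by linarith
  have h7 : (s : ℝ) * Real.log (Ideal.absNorm I) ≤ Real.exp (H ^ 7) * Real.log (Ideal.absNorm I) :=
    mul_le_mul_of_nonneg_right h6 hNI
  linarith

end Pool.Agent.Work.MP_2738db_nt_Y.helper59
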